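import Mathlib

/-!
# A selectively highly divergent compact space with a dense subspace that is not SHD
-/

namespace Pool.Agent.Results.MP_f0fa00_gt.DenseNotSHD

open Set Topology Filter

/-- Selectively highly divergent spaces. -/
def SHD (X : Type*) [TopologicalSpace X] : Prop :=
  ∀ U : ℕ → Set X, (∀ n, IsOpen (U n) ∧ (U n).Nonempty) →
    ∃ x : ℕ → X, (∀ n, x n ∈ U n) ∧
      ¬ ∃ (k : ℕ → ℕ) (a : X), StrictMono k ∧ Tendsto (fun m => x (k m)) atTop (𝓝 a)

/-- the index set -/
abbrev I : Type := ℕ → Bool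

theorem I_uncountable (C : Set I) (hC : C.Countable) (Φ : (ℕ → Bool) → I)
    (hΦ : Function.Injective Φ) : ∃ t, Φ t ∉ C := by
  have h4 : Cardinal.mk (ℕ → Bool) = 2 ^ Cardinal.aleph0 := by simp
  by_contra hcon
  push Not at hcon
  have h1 : (range Φ).Countable := hC.mono (by rintro _ ⟨t, rfl⟩; exact hcon t)
  have h2 : Countable (ℕ → Bool) := by
    have : Countable (range Φ) := h1
    exact (Equiv.ofInjective Φ hΦ).countable_iff.2 this
  have h3 : Cardinal.mk (ℕ → Bool) ≤ Cardinal.aleph0 := Cardinal.mk_le_aleph0_iff.2 h2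
  rw [h4] at h3
  exact absurd h3 (not_le.2 (Cardinal.cantor _))

theorem shd_cube : SHD (I → Bool) := by
  classical
  intro U hU
  have h1 : ∀ n, ∃ (F : Finset I) (z : I → Bool), ∀ x : I → Bool, (∀ i ∈ F, x i = z i) → x ∈ U n := by
    intro n
    obtain ⟨z, hz⟩ := (hU n).2
    obtain ⟨F, u, hu, huU⟩ := isOpen_pi_iff.1 (hU n).1 z hz
    refine ⟨F, z, fun x hx => huU fun i hi => ?_⟩
    rw [hx i hi]; exact (hu i hi).2
  choose F z hFz using h1
  let x : ℕ → I → Bool := fun n i => if i ∈ F n then z n i else i n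
  refine ⟨x, fun n => hFz n _ fun i hi => by simp [x, hi], ?_⟩
  rintro ⟨k, a, hk, ha⟩
  -- sequences that oscillate along `k`
  let Φ : (ℕ → Bool) → I := fun t n =>
    if h : ∃ m, k m = n then
      (if h.choose % 3 = 0 then true else if h.choose % 3 = 1 then false else t (h.choose / 3))
    else false
  have hΦ : ∀ t m, Φ t (k m) =
      (if m % 3 = 0 then true else if m % 3 = 1 then false else t (m / 3)) := by
    intro t m
    have h : ∃ m', k m' = k m := ⟨m, rfl⟩
    have hm : h.choose = m := hk.injective h.choose_spec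
    simp only [Φ, dif_pos h, hm]
  have hinj : Function.Injective Φ := by
    intro t t' htt
    funext m
    have h1 := congrFun htt (k (3 * m + 2))
    rw [hΦ, hΦ] at h1
    have h2 : (3 * m + 2) % 3 = 2 := by omega
    have h3 : (3 * m + 2) / 3 = m := by omega
    simpa [h2, h3] using h1
  obtain ⟨t, ht⟩ := I_uncountable (⋃ n, (F n : Set I))
    (countable_iUnion fun n => (F n).countable_toSet) Φ hinj
  have hnot : ∀ n, Φ t ∉ F n := fun n hn => ht (mem_iUnion.2 ⟨n, hn⟩)
  have hconv := (tendsto_pi_nhds.1 ha) (Φ t)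
  rw [nhds_discrete, tendsto_pure] at hconv
  obtain ⟨M, hM⟩ := eventually_atTop.1 hconv
  have e0 := hM (3 * M) (by omega)
  have e1 := hM (3 * M + 1) (by omega)
  simp only [x, hnot, if_false] at e0 e1
  rw [hΦ] at e0 e1
  have h2 : (3 * M) % 3 = 0 := by omega
  have h3 : (3 * M + 1) % 3 = 1 := by omega
  simp only [h2, h3, if_true, one_ne_zero, if_false] at e0 e1
  rw [← e0] at e1
  exact absurd e1 (by simp)

/-- The points of countable support. -/
def Sig : Set (I → Bool) := {x | {i | x i = true}.Countable}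

theorem dense_Sig : Dense Sig := by
  classical
  rw [dense_iff_inter_open]
  rintro U hU ⟨z, hz⟩
  obtain ⟨F, u, hu, huU⟩ := isOpen_pi_iff.1 hU z hz
  refine ⟨fun i => if i ∈ F then z i else false, huU fun i hi => ?_, ?_⟩
  · have hi' : i ∈ F := hi
    simp only [hi', if_true]; exact (hu i hi').2
  · refine (F.countable_toSet).mono fun i hi => ?_
    by_contra hcon
    have hcon' : i ∉ F := hcon
    simp [hcon'] at hi

theorem not_shd_Sig : ¬ SHD Sig := by
  classical
  intro h
  have hne : (Sig : Set (I → Bool)).Nonempty := ⟨fun _ => false, by simp [Sig]⟩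
  obtain ⟨x, -, hx⟩ := h (fun _ => univ) fun _ => ⟨isOpen_univ, by
    have : Nonempty Sig := hne.to_subtype
    exact univ_nonempty⟩
  apply hx
  let C : Set I := ⋃ n, {i | (x n).1 i = true}
  have hC : C.Countable := countable_iUnion fun n => (x n).2
  have : Countable C := hC
  obtain ⟨b, k, hk, hb⟩ := CompactSpace.tendsto_subseq (fun n => fun i : C => (x n).1 i)
  let a : I → Bool := fun i => if h : i ∈ C then b ⟨i, h⟩ else false
  have ha : a ∈ Sig := by
    refine hC.mono fun i hi => ?_
    by_contra hcon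
    simp only [mem_setOf_eq, a, dif_neg hcon] at hi
    exact absurd hi (by simp)
  refine ⟨k, ⟨a, ha⟩, hk, ?_⟩
  rw [tendsto_subtype_rng, tendsto_pi_nhds]
  intro i
  by_cases hi : i ∈ C
  · have := (tendsto_pi_nhds.1 hb) ⟨i, hi⟩
    simp only [a, dif_pos hi]
    exact this
  · have h1 : ∀ n, (x n).1 i = false := by
      intro n
      by_contra hcon
      rw [Bool.not_eq_false] at hcon
      exact hi (mem_iUnion.2 ⟨n, hcon⟩)
    simp only [a, dif_neg hi, h1]
    exact tendsto_const_nhds

/-- There is a (compact Hausdorff) space which is SHD and has a dense subspace which is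
not SHD. -/
theorem result : ∃ (X : Type) (_ : TopologicalSpace X) (D : Set X),
    CompactSpace X ∧ T2Space X ∧ SHD X ∧ Dense D ∧ ¬ SHD D :=
  ⟨I → Bool, inferInstance, Sig, inferInstance, inferInstance, shd_cube, dense_Sig, not_shd_Sig⟩

end Pool.Agent.Results.MP_f0fa00_gt.DenseNotSHD
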